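import Mathlib

/-!
# Disjoint projective copies of a blocking set in `PG(2, p³)`

For every prime `p` and every field `F` with `p³` elements there is `γ ∈ PGL(3, F)` such that the
blocking set `B = {(1, x, x^p)} ∪ {(0, 1, y) : y^(p²+p+1) = 1}` and its image `γ B` are disjoint.
-/

set_option autoImplicit false

open scoped LinearAlgebra.Projectivization MatrixGroups Pointwise

namespace Pool.Agent.Results.MP_837a86_co.DisjointCopies

/-- The blocking set `B = {(1, x, x^p) : x ∈ F} ∪ {(0, 1, y) : y ∈ F, y^(p²+p+1) = 1}` of the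
projective plane over `F`. -/
def B (p : ℕ) (F : Type*) [Field F] : Set (ℙ F (Fin 3 → F)) :=
  {P | ∃ x : F, ∃ h : (![1, x, x ^ p] : Fin 3 → F) ≠ 0, P = Projectivization.mk F _ h} ∪
  {P | ∃ y : F, y ^ (p ^ 2 + p + 1) = 1 ∧
    ∃ h : (![0, 1, y] : Fin 3 → F) ≠ 0, P = Projectivization.mk F _ h}

section field

variable {p : ℕ} [hp : Fact p.Prime] {F : Type*} [Field F] [Fintype F] [CharP F p]

/-- The trace `z + z^p + z^(p²)` from `F` to the prime field. -/
def tr (p : ℕ) {F : Type*} [Field F] (z : F) : F := z + z ^ p + z ^ (p ^ 2)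

omit [Fintype F] in
lemma tr_sub (a b : F) : tr p (a - b) = tr p a - tr p b := by
  unfold tr
  rw [sub_pow_char, sub_pow_char_pow]
  ring

omit hp [CharP F p] in
lemma tr_pow (hF : Fintype.card F = p ^ 3) (a : F) : tr p (a ^ p) = tr p a := by
  unfold tr
  have h : a ^ (p ^ 3) = a := by rw [← hF]; exact FiniteField.pow_card a
  have h1 : (a ^ p) ^ p = a ^ (p ^ 2) := by rw [← pow_mul]; congr 1; ring
  have h2 : (a ^ p) ^ (p ^ 2) = a := by
    rw [← pow_mul]
    calc a ^ (p * p ^ 2) = a ^ (p ^ 3) := by congr 1; ring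
      _ = a := h
  rw [h1, h2]
  ring

lemma tr_pow_sub (hF : Fintype.card F = p ^ 3) (a : F) : tr p (a ^ p - a) = 0 := by
  rw [tr_sub, tr_pow hF, sub_self]

lemma pow_ne_add {c : F} (hF : Fintype.card F = p ^ 3) (hc : tr p c ≠ 0) (a : F) :
    a ^ p ≠ c + a := by
  intro h
  apply hc
  have : c = a ^ p - a := by rw [h]; ring
  rw [this]
  exact tr_pow_sub hF a

omit [CharP F p] in
/-- There is an element outside the prime field. -/
lemma exists_pow_ne (hF : Fintype.card F = p ^ 3) : ∃ u : F, u ^ p ≠ u := by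
  classical
  by_contra hcon
  push Not at hcon
  have hp1 : 1 < p := hp.out.one_lt
  have hne : (Polynomial.X ^ p - Polynomial.X : Polynomial F) ≠ 0 :=
    FiniteField.X_pow_card_sub_X_ne_zero F hp1
  have hdeg : (Polynomial.X ^ p - Polynomial.X : Polynomial F).natDegree = p :=
    FiniteField.X_pow_card_sub_X_natDegree_eq F hp1
  have h1 : (Finset.univ : Finset F) ⊆
      (Polynomial.X ^ p - Polynomial.X : Polynomial F).roots.toFinset := by
    intro u _
    rw [Multiset.mem_toFinset, Polynomial.mem_roots hne]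
    simp [Polynomial.IsRoot, hcon u]
  have h2 := Finset.card_le_card h1
  have h3 := Multiset.toFinset_card_le (Polynomial.X ^ p - Polynomial.X : Polynomial F).roots
  have h4 := Polynomial.card_roots' (Polynomial.X ^ p - Polynomial.X : Polynomial F)
  rw [Finset.card_univ, hF] at h2
  rw [hdeg] at h4
  have h5 : p ^ 1 < p ^ 3 := Nat.pow_lt_pow_right hp1 (by norm_num)
  rw [pow_one] at h5
  omega

omit [CharP F p] in
/-- If `D ≠ 0` there is `x ≠ 0` with `tr (D x^(p-1)) ≠ 0`. -/
lemma exists_tr_ne (hF : Fintype.card F = p ^ 3) {D : F} (hD : D ≠ 0) :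
    ∃ x : F, x ≠ 0 ∧ tr p (D * x ^ (p - 1)) ≠ 0 := by
  classical
  have hp1 : 1 < p := hp.out.one_lt
  have key : ∃ x : F, tr p (D * x ^ (p - 1)) ≠ 0 := by
    by_contra hcon
    push Not at hcon
    set P : Polynomial F := Polynomial.C D * Polynomial.X ^ (p - 1) +
      Polynomial.C (D ^ p) * Polynomial.X ^ (p * (p - 1)) +
      Polynomial.C (D ^ (p ^ 2)) * Polynomial.X ^ (p ^ 2 * (p - 1)) with hP
    have hq : 0 < p - 1 := by omega
    have e1 : p - 1 < p ^ 2 * (p - 1) := by nlinarith [Nat.pow_lt_pow_left hp1 (n := 2) (by norm_num)]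
    have e2 : p * (p - 1) < p ^ 2 * (p - 1) := by
      apply Nat.mul_lt_mul_of_pos_right _ hq
      nlinarith
    have hcoef : P.coeff (p ^ 2 * (p - 1)) = D ^ (p ^ 2) := by
      rw [hP]
      simp only [Polynomial.coeff_add, Polynomial.coeff_C_mul, Polynomial.coeff_X_pow]
      rw [if_neg (by omega), if_neg (by omega)]
      simp
    have hne : P ≠ 0 := by
      intro h0
      rw [h0] at hcoef
      simp only [Polynomial.coeff_zero] at hcoef
      exact pow_ne_zero _ hD hcoef.symm
    have hdeg : P.natDegree ≤ p ^ 2 * (p - 1) := by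
      rw [hP]
      refine Polynomial.natDegree_add_le_of_degree_le
        (Polynomial.natDegree_add_le_of_degree_le ?_ ?_) ?_
      · exact (Polynomial.natDegree_C_mul_X_pow_le _ _).trans (by omega)
      · exact (Polynomial.natDegree_C_mul_X_pow_le _ _).trans (by omega)
      · exact Polynomial.natDegree_C_mul_X_pow_le _ _
    have h1 : (Finset.univ : Finset F) ⊆ P.roots.toFinset := by
      intro u _
      rw [Multiset.mem_toFinset, Polynomial.mem_roots hne]
      have := hcon u
      unfold tr at this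
      rw [Polynomial.IsRoot, hP]
      simp only [Polynomial.eval_add, Polynomial.eval_mul, Polynomial.eval_C,
        Polynomial.eval_pow, Polynomial.eval_X]
      rw [← this, mul_pow, mul_pow, ← pow_mul, ← pow_mul, Nat.mul_comm (p - 1) p,
        Nat.mul_comm (p - 1) (p ^ 2)]
    have h2 := Finset.card_le_card h1
    have h3 := Multiset.toFinset_card_le P.roots
    have h4 := Polynomial.card_roots' P
    rw [Finset.card_univ, hF] at h2
    have h5 : p ^ 2 * (p - 1) < p ^ 3 := by
      rw [pow_succ p 2]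
      apply Nat.mul_lt_mul_of_pos_left (by omega) (by positivity)
    omega
  obtain ⟨x, hx⟩ := key
  refine ⟨x, ?_, hx⟩
  rintro rfl
  apply hx
  have : (0 : F) ^ (p - 1) = 0 := zero_pow (by omega)
  rw [this, mul_zero]
  unfold tr
  rw [zero_pow hp.out.ne_zero, zero_pow (pow_ne_zero 2 hp.out.ne_zero)]
  simp

/-- The map `g(x) = x^(p²-p+1) - x^p - c x`. -/
def gmap (p : ℕ) {F : Type*} [Field F] (c x : F) : F := x ^ (p ^ 2 - p + 1) - x ^ p - c * x

/-- The key lemma: for a suitable `c` of nonzero trace, `g` is not injective on `F ∖ {0}`. -/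
lemma exists_c (hF : Fintype.card F = p ^ 3) :
    ∃ c : F, tr p c ≠ 0 ∧ ∃ x₁ x₂ : F, x₁ ≠ 0 ∧ x₂ ≠ 0 ∧ x₁ ≠ x₂ ∧ gmap p c x₁ = gmap p c x₂ := by
  have hp1 : 1 < p := hp.out.one_lt
  have hpp : p ≤ p ^ 2 := Nat.le_self_pow (by norm_num) p
  obtain ⟨u, hu⟩ := exists_pow_ne (F := F) hF
  have hu0 : u ≠ 0 := by
    rintro rfl
    exact hu (zero_pow hp.out.ne_zero)
  have hu1 : u - 1 ≠ 0 := by
    intro h
    have : u = 1 := by linear_combination h
    rw [this] at hu
    exact hu (one_pow _)
  set A : F := (u ^ (p ^ 2 - p + 1) - 1) / (u - 1) with hA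
  set Q : F := (u ^ p - 1) / (u - 1) with hQ
  have hup : u ^ p - 1 ≠ 0 := by
    intro h
    apply hu1
    have : (u - 1) ^ p = 0 := by rw [sub_pow_char, one_pow, h]
    exact pow_eq_zero_iff hp.out.ne_zero |>.1 this
  have hQp : Q ^ p = (u ^ (p ^ 2) - 1) / (u ^ p - 1) := by
    rw [hQ, div_pow, sub_pow_char, sub_pow_char, one_pow, ← pow_mul]
    congr 3
    ring
  have hAQ : A ≠ Q ^ p := by
    intro h
    rw [hQp, hA, div_eq_div_iff hu1 hup] at h
    have e1 : u ^ (p ^ 2) = u ^ (p ^ 2 - p) * u ^ p := by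
      rw [← pow_add]; congr 1; omega
    have e2 : u ^ (p ^ 2 - p + 1) = u ^ (p ^ 2 - p) * u := pow_succ _ _
    rw [e1, e2] at h
    have h3 : (u ^ p - u) * (u ^ (p ^ 2 - p) - 1) = 0 := by
      linear_combination h
    rcases mul_eq_zero.1 h3 with h4 | h4
    · exact hu (by linear_combination h4)
    · have e3 : (u ^ (p - 1) - 1) ^ p = 0 := by
        rw [sub_pow_char, one_pow, ← pow_mul]
        have : (p - 1) * p = p ^ 2 - p := by
          rw [Nat.sub_mul, one_mul, sq]
        rw [this]
        exact h4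
      have e4 : u ^ (p - 1) - 1 = 0 := pow_eq_zero_iff hp.out.ne_zero |>.1 e3
      apply hu
      have : u ^ p = u ^ (p - 1) * u := by
        rw [← pow_succ]; congr 1; omega
      rw [this]
      linear_combination u * e4
  set D : F := A ^ (p ^ 2) - Q with hDdef
  have hD : D ≠ 0 := by
    intro h
    apply hAQ
    have h5 : A ^ (p ^ 2) = Q := by linear_combination h
    rw [← h5, ← pow_mul]
    have : p ^ 2 * p = p ^ 3 := by ring
    rw [this, ← hF]
    exact (FiniteField.pow_card A).symm
  obtain ⟨x, hx0, hx⟩ := exists_tr_ne (F := F) hF hD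
  set T : F := x ^ (p - 1) with hT
  refine ⟨A * T ^ p - Q * T, ?_, u * x, x, mul_ne_zero hu0 hx0, hx0, ?_, ?_⟩
  · have h6 : tr p (A * T ^ p) = tr p (A ^ (p ^ 2) * T) := by
      have e : A * T ^ p = (A ^ (p ^ 2) * T) ^ p := by
        rw [mul_pow, ← pow_mul A]
        have : p ^ 2 * p = p ^ 3 := by ring
        rw [this, ← hF, FiniteField.pow_card]
      rw [e, tr_pow hF]
    rw [tr_sub, h6, ← tr_sub, ← sub_mul, ← hDdef]
    exact hx
  · intro h
    apply hu1
    have : (u - 1) * x = 0 := by linear_combination h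
    exact (mul_eq_zero.1 this).resolve_right hx0
  · unfold gmap
    have eA : A * (u - 1) = u ^ (p ^ 2 - p + 1) - 1 := div_mul_cancel₀ _ hu1
    have eQ : Q * (u - 1) = u ^ p - 1 := div_mul_cancel₀ _ hu1
    have eT1 : x ^ p = T * x := by
      rw [hT, ← pow_succ]; congr 1; omega
    have eT2 : x ^ (p ^ 2 - p + 1) = T ^ p * x := by
      rw [hT, ← pow_mul, ← pow_succ]
      congr 1
      rw [Nat.sub_mul, one_mul, sq]
    rw [mul_pow, mul_pow, eT1, eT2]
    linear_combination (-(T ^ p * x)) * eA + (T * x) * eQ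

/-- The matrix of the projectivity. -/
def M (b c : F) : Matrix (Fin 3) (Fin 3) F := !![0, 1, 0; 0, 0, 1; b, c, 1]

omit [Fintype F] [CharP F p] hp in
lemma det_M (b c : F) : (M b c).det = b := by
  simp [M, Matrix.det_fin_three]

omit [Fintype F] in
lemma M_mulVec (b c x y z : F) :
    (M b c).mulVec ![x, y, z] = ![y, z, b * x + c * y + z] := by
  ext i
  fin_cases i <;> simp [M, Matrix.mulVec, dotProduct, Fin.sum_univ_three]

/-- The main statement for a fixed field. -/
theorem main (hF : Fintype.card F = p ^ 3) : ∃ γ : PGL(3, F), Disjoint (B p F) (γ • B p F) := by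
  classical
  have hp1 : 1 < p := hp.out.one_lt
  obtain ⟨c, hc, x₁, x₂, hx₁, hx₂, hne, hg⟩ := exists_c (F := F) hF
  have hg0 : ∀ x : F, x ≠ 0 → gmap p c x ≠ 0 := by
    intro x hx h
    apply pow_ne_add hF hc (x ^ (p - 1))
    have eT1 : x ^ p = x ^ (p - 1) * x := by
      rw [← pow_succ]; congr 1; omega
    have eT2 : x ^ (p ^ 2 - p + 1) = (x ^ (p - 1)) ^ p * x := by
      rw [← pow_mul, ← pow_succ]
      congr 1
      rw [Nat.sub_mul, one_mul, sq]
    unfold gmap at h
    rw [eT1, eT2] at h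
    have h2 : x * ((x ^ (p - 1)) ^ p - (c + x ^ (p - 1))) = 0 := by linear_combination h
    have h3 := (mul_eq_zero.1 h2).resolve_left hx
    linear_combination h3
  -- `b ≠ 0` outside the image of `g`
  obtain ⟨b, hb, hbg⟩ : ∃ b : F, b ≠ 0 ∧ ∀ x : F, x ≠ 0 → gmap p c x ≠ b := by
    by_contra hcon
    push Not at hcon
    let G : {x : F // x ≠ 0} → {x : F // x ≠ 0} := fun x => ⟨gmap p c x.1, hg0 x.1 x.2⟩
    have hsurj : Function.Surjective G := by
      intro b
      obtain ⟨x, hx, hxb⟩ := hcon b.1 b.2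
      exact ⟨⟨x, hx⟩, Subtype.ext hxb⟩
    have hinj : Function.Injective G := Finite.injective_iff_surjective.2 hsurj
    have : (⟨x₁, hx₁⟩ : {x : F // x ≠ 0}) = ⟨x₂, hx₂⟩ := hinj (Subtype.ext hg)
    exact hne (congrArg Subtype.val this)
  have hdet : (M b c).det ≠ 0 := by rw [det_M]; exact hb
  refine ⟨Matrix.ProjGenLinGroup.mk (Matrix.GeneralLinearGroup.mkOfDetNeZero (M b c) hdet), ?_⟩
  have hact : ∀ w : Fin 3 → F,
      (Matrix.GeneralLinearGroup.mkOfDetNeZero (M b c) hdet) • w = (M b c).mulVec w := by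
    intro w
    rfl
  rw [Set.disjoint_left]
  rintro P hP ⟨Q, hQ, hPQ⟩
  simp only at hPQ
  rcases hQ with ⟨x, hx, rfl⟩ | ⟨y, hy, hv, rfl⟩
  · rw [Projectivization.PGL.mk_smul_mk] at hPQ
    rcases hP with ⟨z, hz, rfl⟩ | ⟨z, hz, hw, rfl⟩
    · rw [Projectivization.mk_eq_mk_iff'] at hPQ
      obtain ⟨a, ha⟩ := hPQ
      rw [hact, M_mulVec] at ha
      have h0 := congrFun ha 0
      have h1 := congrFun ha 1
      have h2 := congrFun ha 2
      simp only [Matrix.smul_cons, smul_eq_mul, mul_one, Matrix.smul_empty, Matrix.cons_val_zero,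
        Matrix.cons_val_one, Matrix.cons_val] at h0 h1 h2
      subst h0
      rcases eq_or_ne a 0 with rfl | ha0
      · apply hb
        rw [zero_pow hp.out.ne_zero] at h2
        linear_combination -h2
      · apply hbg a ha0
        have e1 : a ^ p = a * a ^ (p - 1) := by
          rw [← pow_succ']; congr 1; omega
        have e2 : z = a ^ (p - 1) := by
          rw [e1] at h1
          exact mul_left_cancel₀ ha0 h1
        have e3 : a ^ (p ^ 2 - p + 1) = a * z ^ p := by
          rw [e2, ← pow_mul, ← pow_succ']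
          congr 1
          rw [Nat.sub_mul, one_mul, sq]
        unfold gmap
        linear_combination e3 + h2
    · rw [Projectivization.mk_eq_mk_iff'] at hPQ
      obtain ⟨a, ha⟩ := hPQ
      rw [hact, M_mulVec] at ha
      have h0 := congrFun ha 0
      have h1 := congrFun ha 1
      have h2 := congrFun ha 2
      simp only [Matrix.smul_cons, smul_eq_mul, mul_one, mul_zero, Matrix.smul_empty,
        Matrix.cons_val_zero, Matrix.cons_val_one, Matrix.cons_val] at h0 h1 h2
      subst h0
      rw [zero_pow hp.out.ne_zero] at h1 h2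
      apply hb
      rw [h1] at h2
      linear_combination -h2
  · rw [Projectivization.PGL.mk_smul_mk] at hPQ
    rcases hP with ⟨z, hz, rfl⟩ | ⟨z, hz, hw, rfl⟩
    · rw [Projectivization.mk_eq_mk_iff'] at hPQ
      obtain ⟨a, ha⟩ := hPQ
      rw [hact, M_mulVec] at ha
      have h0 := congrFun ha 0
      have h1 := congrFun ha 1
      have h2 := congrFun ha 2
      simp only [Matrix.smul_cons, smul_eq_mul, mul_one, mul_zero, Matrix.smul_empty,
        Matrix.cons_val_zero, Matrix.cons_val_one, Matrix.cons_val] at h0 h1 h2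
      subst h0
      rw [one_mul] at h1 h2
      subst h1
      exact pow_ne_add hF hc z (by linear_combination h2)
    · rw [Projectivization.mk_eq_mk_iff'] at hPQ
      obtain ⟨a, ha⟩ := hPQ
      rw [hact, M_mulVec] at ha
      have h0 := congrFun ha 0
      have h1 := congrFun ha 1
      have h2 := congrFun ha 2
      simp at h0 h1 h2

end field

/-- For every prime `p` and every field `F` with `p³` elements there is `γ ∈ PGL(3, F)` with
`B ∩ γ(B) = ∅`. -/
theorem result (p : ℕ) (hp : p.Prime) (F : Type*) [Field F] [Fintype F]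
    (hF : Fintype.card F = p ^ 3) :
    ∃ γ : PGL(3, F), B p F ∩ γ • B p F = ∅ := by
  have : Fact p.Prime := ⟨hp⟩
  have : CharP F p := charP_of_card_eq_prime_pow hF
  obtain ⟨γ, h⟩ := main (p := p) (F := F) hF
  exact ⟨γ, Set.disjoint_iff_inter_eq_empty.1 h⟩

end Pool.Agent.Results.MP_837a86_co.DisjointCopies
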